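import Mathlib

set_option autoImplicit false

open CategoryTheory CategoryTheory.MonoidalCategory CategoryTheory.Limits

namespace Pool.Agent.H268R3

/-- the base field -/
abbrev kk : Type := ZMod 2

/-- the Klein four group -/
abbrev VV : Type := Multiplicative (ZMod 2) × Multiplicative (ZMod 2)

/-- the category of representations -/
abbrev RR : Type 1 := Rep.{0} kk VV

/-- first generator -/
def g1 : VV := (Multiplicative.ofAdd 1, 1)
/-- second generator -/
def g2 : VV := (1, Multiplicative.ofAdd 1)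

lemma g1_mul_g1 : g1 * g1 = 1 := by decide
lemma g2_mul_g2 : g2 * g2 = 1 := by decide
lemma g1_mul_g2 : g1 * g2 = g2 * g1 := by decide

lemma two_smul_zero {V : Type} [AddCommGroup V] [Module kk V] (v : V) : v + v = 0 := by
  have h : (2 : kk) • v = 0 := by
    have : (2 : kk) = 0 := by decide
    rw [this, zero_smul]
  rwa [two_smul] at h

lemma neg_eq' {V : Type} [AddCommGroup V] [Module kk V] (v : V) : -v = v :=
  neg_eq_of_add_eq_zero_left (two_smul_zero v)

/-- the operator `g1 - 1` -/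
noncomputable def xo (X : RR) : X.V →ₗ[kk] X.V := X.ρ g1 + LinearMap.id
/-- the operator `g2 - 1` -/
noncomputable def yo (X : RR) : X.V →ₗ[kk] X.V := X.ρ g2 + LinearMap.id
/-- the norm element acting -/
noncomputable def sg (X : RR) : X.V →ₗ[kk] X.V := xo X ∘ₗ yo X

lemma xo_apply (X : RR) (v : X.V) : xo X v = X.ρ g1 v + v := rfl
lemma yo_apply (X : RR) (v : X.V) : yo X v = X.ρ g2 v + v := rfl
lemma sg_apply (X : RR) (v : X.V) : sg X v = xo X (yo X v) := rfl

lemma rho_g1 (X : RR) (v : X.V) : X.ρ g1 v = v + xo X v := by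
  rw [xo_apply, add_comm, add_assoc, two_smul_zero, add_zero]

lemma rho_g2 (X : RR) (v : X.V) : X.ρ g2 v = v + yo X v := by
  rw [yo_apply, add_comm, add_assoc, two_smul_zero, add_zero]

lemma rho_mul (X : RR) (g h : VV) (v : X.V) : X.ρ (g * h) v = X.ρ g (X.ρ h v) := by
  rw [map_mul]; rfl

lemma xo_xo (X : RR) (v : X.V) : xo X (xo X v) = 0 := by
  simp only [xo_apply, map_add]
  rw [← rho_mul, g1_mul_g1, map_one, Module.End.one_apply]
  have : v + (X.ρ g1) v + ((X.ρ g1) v + v) = (v + v) + ((X.ρ g1) v + (X.ρ g1) v) := by abel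
  rw [this, two_smul_zero, two_smul_zero, add_zero]

lemma yo_yo (X : RR) (v : X.V) : yo X (yo X v) = 0 := by
  simp only [yo_apply, map_add]
  rw [← rho_mul, g2_mul_g2, map_one, Module.End.one_apply]
  have : v + (X.ρ g2) v + ((X.ρ g2) v + v) = (v + v) + ((X.ρ g2) v + (X.ρ g2) v) := by abel
  rw [this, two_smul_zero, two_smul_zero, add_zero]

lemma xo_yo (X : RR) (v : X.V) : xo X (yo X v) = yo X (xo X v) := by
  simp only [xo_apply, yo_apply, map_add]
  rw [← rho_mul, ← rho_mul, g1_mul_g2]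
  abel

lemma exists_rep (g : VV) : g = 1 ∨ g = g1 ∨ g = g2 ∨ g = g1 * g2 := by
  revert g; decide

/-- equivariance may be checked on the two operators -/
lemma equivariant_of {X Y : RR} (f : X.V →ₗ[kk] Y.V)
    (hx : ∀ v, f (xo X v) = xo Y (f v)) (hy : ∀ v, f (yo X v) = yo Y (f v)) (g : VV) (v : X.V) :
    f (X.ρ g v) = Y.ρ g (f v) := by
  have h1 : ∀ v, f (X.ρ g1 v) = Y.ρ g1 (f v) := by
    intro v; rw [rho_g1, rho_g1, map_add, hx]
  have h2 : ∀ v, f (X.ρ g2 v) = Y.ρ g2 (f v) := by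
    intro v; rw [rho_g2, rho_g2, map_add, hy]
  rcases exists_rep g with rfl | rfl | rfl | rfl
  · simp
  · exact h1 v
  · exact h2 v
  · rw [rho_mul, rho_mul, h1, h2]

/-- build a morphism from operators-compatibility -/
noncomputable def mkHom {X Y : RR} (f : X.V →ₗ[kk] Y.V)
    (hx : ∀ v, f (xo X v) = xo Y (f v)) (hy : ∀ v, f (yo X v) = yo Y (f v)) : X ⟶ Y :=
  Rep.ofHom ⟨f, fun g => by ext v; exact equivariant_of f hx hy g v⟩

lemma mkHom_apply {X Y : RR} (f : X.V →ₗ[kk] Y.V)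
    (hx : ∀ v, f (xo X v) = xo Y (f v)) (hy : ∀ v, f (yo X v) = yo Y (f v)) (v : X.V) :
    (mkHom f hx hy).hom v = f v := rfl

lemma hom_xo {X Y : RR} (f : X ⟶ Y) (v : X.V) : f.hom (xo X v) = xo Y (f.hom v) := by
  rw [xo_apply, xo_apply, map_add, Rep.hom_comm_apply]

lemma hom_yo {X Y : RR} (f : X ⟶ Y) (v : X.V) : f.hom (yo X v) = yo Y (f.hom v) := by
  rw [yo_apply, yo_apply, map_add, Rep.hom_comm_apply]

lemma hom_sg {X Y : RR} (f : X ⟶ Y) (v : X.V) : f.hom (sg X v) = sg Y (f.hom v) := by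
  rw [sg_apply, sg_apply, hom_xo, hom_yo]

/-- a bijective morphism gives an iso -/
noncomputable def isoOfBij {X Y : RR} (f : X ⟶ Y) (hf : Function.Bijective f.hom) : X ≅ Y := by
  haveI : Mono f := (Rep.mono_iff_injective f).2 hf.1
  haveI : Epi f := (Rep.epi_iff_surjective f).2 hf.2
  haveI : IsIso f := isIso_of_mono_of_epi f
  exact asIso f

end Pool.Agent.H268R3
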