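import Pool.Agent.H268R3.V4Basic

set_option autoImplicit false

open CategoryTheory CategoryTheory.MonoidalCategory CategoryTheory.Limits

namespace Pool.Agent.H268R3

/-- rank of the norm element -/
noncomputable def rk (X : RR) : ℕ := Module.finrank kk (LinearMap.range (sg X))

/-- core dimension as an integer -/
noncomputable def cd (X : RR) : ℤ := (Module.finrank kk X.V : ℤ) - 4 * (rk X : ℤ)

/-- linear equivalence underlying an iso -/
noncomputable def linOfIso {X Y : RR} (e : X ≅ Y) : X.V ≃ₗ[kk] Y.V where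
  toFun := fun v => e.hom.hom v
  map_add' := fun a b => map_add _ a b
  map_smul' := fun a b => map_smul _ a b
  invFun := fun v => e.inv.hom v
  left_inv := fun v => by
    change (e.hom ≫ e.inv).hom v = v
    rw [e.hom_inv_id]; rfl
  right_inv := fun v => by
    change (e.inv ≫ e.hom).hom v = v
    rw [e.inv_hom_id]; rfl

lemma linOfIso_sg {X Y : RR} (e : X ≅ Y) (v : X.V) :
    linOfIso e (sg X v) = sg Y (linOfIso e v) := hom_sg e.hom v

lemma rk_iso {X Y : RR} (e : X ≅ Y) : rk X = rk Y := by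
  unfold rk
  have h : LinearMap.range (sg Y) = (LinearMap.range (sg X)).map (linOfIso e).toLinearMap := by
    ext w
    constructor
    · rintro ⟨v, rfl⟩
      refine ⟨sg X ((linOfIso e).symm v), ⟨_, rfl⟩, ?_⟩
      change linOfIso e _ = _
      rw [linOfIso_sg, LinearEquiv.apply_symm_apply]
    · rintro ⟨_, ⟨v, rfl⟩, rfl⟩
      exact ⟨linOfIso e v, (linOfIso_sg e v).symm⟩
  rw [h]
  exact (LinearEquiv.finrank_eq ((linOfIso e).submoduleMap _))

lemma cd_iso {X Y : RR} (e : X ≅ Y) : cd X = cd Y := by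
  unfold cd
  rw [rk_iso e, (linOfIso e).finrank_eq]

/-- linear equivalence of a biproduct with the product -/
noncomputable def linOfBiprod (X Y : RR) : (X ⊞ Y).V ≃ₗ[kk] X.V × Y.V where
  toFun := fun v => ((biprod.fst : X ⊞ Y ⟶ X).hom v, (biprod.snd : X ⊞ Y ⟶ Y).hom v)
  map_add' := fun a b => by simp
  map_smul' := fun a b => by simp
  invFun := fun w => (biprod.inl : X ⟶ X ⊞ Y).hom w.1 + (biprod.inr : Y ⟶ X ⊞ Y).hom w.2
  left_inv := fun v => by
    change (biprod.fst ≫ biprod.inl + biprod.snd ≫ biprod.inr : X ⊞ Y ⟶ X ⊞ Y).hom v = v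
    rw [biprod.total]; rfl
  right_inv := fun w => by
    have h1 : (biprod.fst : X ⊞ Y ⟶ X).hom ((biprod.inl : X ⟶ X ⊞ Y).hom w.1) = w.1 := by
      change (biprod.inl ≫ biprod.fst : X ⟶ X).hom w.1 = w.1
      rw [biprod.inl_fst]; rfl
    have h2 : (biprod.snd : X ⊞ Y ⟶ Y).hom ((biprod.inl : X ⟶ X ⊞ Y).hom w.1) = 0 := by
      change (biprod.inl ≫ biprod.snd : X ⟶ Y).hom w.1 = 0
      rw [biprod.inl_snd]; rfl
    have h3 : (biprod.fst : X ⊞ Y ⟶ X).hom ((biprod.inr : Y ⟶ X ⊞ Y).hom w.2) = 0 := by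
      change (biprod.inr ≫ biprod.fst : Y ⟶ X).hom w.2 = 0
      rw [biprod.inr_fst]; rfl
    have h4 : (biprod.snd : X ⊞ Y ⟶ Y).hom ((biprod.inr : Y ⟶ X ⊞ Y).hom w.2) = w.2 := by
      change (biprod.inr ≫ biprod.snd : Y ⟶ Y).hom w.2 = w.2
      rw [biprod.inr_snd]; rfl
    ext
    · simp [h1, h3]
    · simp [h2, h4]

lemma linOfBiprod_sg (X Y : RR) (v : (X ⊞ Y).V) :
    linOfBiprod X Y (sg (X ⊞ Y) v) = (sg X (linOfBiprod X Y v).1, sg Y (linOfBiprod X Y v).2) := by
  change ((biprod.fst : X ⊞ Y ⟶ X).hom _, (biprod.snd : X ⊞ Y ⟶ Y).hom _) = _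
  rw [hom_sg, hom_sg]
  rfl

/-- product of submodules as a product -/
def prodSubEquiv {V W : Type} [AddCommGroup V] [AddCommGroup W] [Module kk V] [Module kk W]
    (p : Submodule kk V) (q : Submodule kk W) : (p.prod q) ≃ₗ[kk] p × q where
  toFun v := (⟨v.1.1, v.2.1⟩, ⟨v.1.2, v.2.2⟩)
  map_add' _ _ := rfl
  map_smul' _ _ := rfl
  invFun w := ⟨(w.1.1, w.2.1), ⟨w.1.2, w.2.2⟩⟩
  left_inv _ := rfl
  right_inv _ := rfl

lemma rk_biprod (X Y : RR) [FiniteDimensional kk X.V] [FiniteDimensional kk Y.V] :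
    rk (X ⊞ Y) = rk X + rk Y := by
  unfold rk
  have h : (LinearMap.range (sg (X ⊞ Y))).map (linOfBiprod X Y).toLinearMap
      = (LinearMap.range (sg X)).prod (LinearMap.range (sg Y)) := by
    ext w
    constructor
    · rintro ⟨_, ⟨v, rfl⟩, rfl⟩
      change linOfBiprod X Y (sg (X ⊞ Y) v) ∈ _
      rw [linOfBiprod_sg]
      exact ⟨⟨_, rfl⟩, ⟨_, rfl⟩⟩
    · rintro ⟨⟨a, ha⟩, ⟨b, hb⟩⟩
      refine ⟨sg (X ⊞ Y) ((linOfBiprod X Y).symm (a, b)), ⟨_, rfl⟩, ?_⟩
      change linOfBiprod X Y (sg (X ⊞ Y) _) = _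
      rw [linOfBiprod_sg, LinearEquiv.apply_symm_apply]
      ext
      · exact ha
      · exact hb
  have h2 := LinearEquiv.finrank_eq ((linOfBiprod X Y).submoduleMap (LinearMap.range (sg (X ⊞ Y))))
  rw [h2]
  have h3 : Module.finrank kk ((LinearMap.range (sg (X ⊞ Y))).map (linOfBiprod X Y).toLinearMap)
      = Module.finrank kk ((LinearMap.range (sg X)).prod (LinearMap.range (sg Y))) := by
    rw [h]
  refine h3.trans ?_
  rw [LinearEquiv.finrank_eq (prodSubEquiv (LinearMap.range (sg X)) (LinearMap.range (sg Y)))]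
  exact Module.finrank_prod

lemma finrank_biprod (X Y : RR) [FiniteDimensional kk X.V] [FiniteDimensional kk Y.V] :
    Module.finrank kk (X ⊞ Y).V = Module.finrank kk X.V + Module.finrank kk Y.V := by
  rw [LinearEquiv.finrank_eq (linOfBiprod X Y)]
  exact Module.finrank_prod

lemma cd_biprod (X Y : RR) [FiniteDimensional kk X.V] [FiniteDimensional kk Y.V] :
    cd (X ⊞ Y) = cd X + cd Y := by
  unfold cd
  rw [rk_biprod, finrank_biprod]
  push_cast
  ring

lemma fd_biprod (X Y : RR) [FiniteDimensional kk X.V] [FiniteDimensional kk Y.V] :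
    FiniteDimensional kk (X ⊞ Y).V :=
  Module.Finite.equiv (linOfBiprod X Y).symm

lemma fd_left (X Y : RR) (h : FiniteDimensional kk (X ⊞ Y).V) : FiniteDimensional kk X.V := by
  have : FiniteDimensional kk (X.V × Y.V) := Module.Finite.equiv (linOfBiprod X Y)
  exact Module.Finite.of_surjective (LinearMap.fst kk X.V Y.V) LinearMap.fst_surjective

lemma fd_right (X Y : RR) (h : FiniteDimensional kk (X ⊞ Y).V) : FiniteDimensional kk Y.V := by
  have : FiniteDimensional kk (X.V × Y.V) := Module.Finite.equiv (linOfBiprod X Y)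
  exact Module.Finite.of_surjective (LinearMap.snd kk X.V Y.V) LinearMap.snd_surjective

end Pool.Agent.H268R3
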