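import Pool.Agent.H268R3.V4Modules

set_option autoImplicit false

open CategoryTheory CategoryTheory.MonoidalCategory CategoryTheory.Limits

namespace Pool.Agent.H268R3

/-- the dual object -/
noncomputable abbrev du (X : RR) : RR := Rep.of X.ρ.dual

lemma g1_inv : g1⁻¹ = g1 := by decide
lemma g2_inv : g2⁻¹ = g2 := by decide

lemma xo_du (X : RR) (f : Module.Dual kk X.V) : xo (du X) f = f ∘ₗ xo X := by
  rw [xo_apply]
  change (X.ρ.dual g1) f + f = f ∘ₗ (X.ρ g1 + LinearMap.id)
  rw [Representation.dual_apply, g1_inv, LinearMap.comp_add, LinearMap.comp_id]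
  rfl

lemma yo_du (X : RR) (f : Module.Dual kk X.V) : yo (du X) f = f ∘ₗ yo X := by
  rw [yo_apply]
  change (X.ρ.dual g2) f + f = f ∘ₗ (X.ρ g2 + LinearMap.id)
  rw [Representation.dual_apply, g2_inv, LinearMap.comp_add, LinearMap.comp_id]
  rfl

lemma sg_du (X : RR) (f : Module.Dual kk X.V) : sg (du X) f = f ∘ₗ sg X := by
  rw [sg_apply, yo_du, xo_du]
  apply LinearMap.ext
  intro v
  change f (yo X (xo X v)) = f (xo X (yo X v))
  rw [xo_yo]

instance fd_du (X : RR) [FiniteDimensional kk X.V] : FiniteDimensional kk (du X).V := by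
  change FiniteDimensional kk (Module.Dual kk X.V)
  infer_instance

lemma rk_du (X : RR) [FiniteDimensional kk X.V] : rk (du X) = rk X := by
  unfold rk
  have h : sg (du X) = (sg X).dualMap := by
    apply LinearMap.ext
    intro f
    rw [sg_du]
    rfl
  rw [h]
  exact LinearMap.finrank_range_dualMap_eq_finrank_range _

lemma cd_du (X : RR) [FiniteDimensional kk X.V] : cd (du X) = cd X := by
  unfold cd
  rw [rk_du]
  have : Module.finrank kk (du X).V = Module.finrank kk X.V := Subspace.dual_finrank_eq
  rw [this]

/-- dual of a tensor product -/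
lemma du_tensor (X Y : RR) [FiniteDimensional kk X.V] [FiniteDimensional kk Y.V] :
    Nonempty ((du X ⊗ du Y : RR) ≅ du (X ⊗ Y)) := by
  let e := TensorProduct.dualDistribEquiv kk X.V Y.V
  have he : ∀ (f : Module.Dual kk X.V) (g : Module.Dual kk Y.V) (m : X.V) (n : Y.V),
      e (TensorProduct.tmul kk f g) (TensorProduct.tmul kk m n) = f m * g n := by
    intro f g m n
    exact TensorProduct.dualDistribEquivOfBasis_apply_apply _ _ _ _
  have key : ∀ (g : VV) (w : TensorProduct kk (Module.Dual kk X.V) (Module.Dual kk Y.V)),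
      e ((du X ⊗ du Y : RR).ρ g w) = (du (X ⊗ Y)).ρ g (e w) := by
    intro g w
    induction w using TensorProduct.induction_on with
    | zero => simp only [map_zero]
    | add a b ha hb => rw [map_add, map_add, ha, hb, map_add, map_add]
    | tmul f f' =>
      apply LinearMap.ext
      intro z
      induction z using TensorProduct.induction_on with
      | zero => simp only [map_zero]
      | add a b ha hb => rw [map_add, ha, hb, map_add]
      | tmul m n =>
        have h1 : (du X ⊗ du Y : RR).ρ g (TensorProduct.tmul kk f f')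
          = TensorProduct.tmul kk (X.ρ.dual g f) (Y.ρ.dual g f') := rfl
        rw [h1, he]
        have h2 : ((du (X ⊗ Y)).ρ g (e (TensorProduct.tmul kk f f'))) (TensorProduct.tmul kk m n)
          = (e (TensorProduct.tmul kk f f')) (TensorProduct.tmul kk (X.ρ g⁻¹ m) (Y.ρ g⁻¹ n)) := rfl
        rw [h2, he]
        rfl
  let F : (du X ⊗ du Y : RR) ⟶ du (X ⊗ Y) :=
    Rep.ofHom ⟨e.toLinearMap, fun g => LinearMap.ext (fun w => key g w)⟩
  exact ⟨isoOfBij F e.bijective⟩

lemma du_iso {X Y : RR} (e : X ≅ Y) : Nonempty (du X ≅ du Y) := by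
  let F : du X ⟶ du Y := mkHom (X := du X) (Y := du Y)
    ((linOfIso e).symm.toLinearMap.dualMap)
    (by
      intro f
      rw [xo_du, xo_du]
      apply LinearMap.ext
      intro v
      change f (xo X ((linOfIso e).symm v)) = f ((linOfIso e).symm (xo Y v))
      congr 1
      exact (hom_xo e.inv v).symm)
    (by
      intro f
      rw [yo_du, yo_du]
      apply LinearMap.ext
      intro v
      change f (yo X ((linOfIso e).symm v)) = f ((linOfIso e).symm (yo Y v))
      congr 1
      exact (hom_yo e.inv v).symm)
  refine ⟨isoOfBij F ?_⟩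
  exact ((linOfIso e).symm.dualMap).bijective

lemma du_unit : Nonempty (du (𝟙_ RR) ≅ 𝟙_ RR) := by
  let F : 𝟙_ RR ⟶ du (𝟙_ RR) := mkHom (X := 𝟙_ RR) (Y := du (𝟙_ RR))
    (LinearMap.mul kk kk)
    (by
      intro v
      rw [xo_du]
      have h : ∀ v, xo (𝟙_ RR) v = 0 := fun v => by
        rw [xo_apply]; exact two_smul_zero v
      apply LinearMap.ext
      intro w
      rw [h, map_zero]
      change _ = (LinearMap.mul kk kk v) (xo (𝟙_ RR) w)
      rw [h, map_zero]
      rfl)
    (by
      intro v
      rw [yo_du]
      have h : ∀ v, yo (𝟙_ RR) v = 0 := fun v => by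
        rw [yo_apply]; exact two_smul_zero v
      apply LinearMap.ext
      intro w
      rw [h, map_zero]
      change _ = (LinearMap.mul kk kk v) (yo (𝟙_ RR) w)
      rw [h, map_zero]
      rfl)
  have hF : Function.Bijective F.hom := by
    constructor
    · intro (a : kk) (b : kk) hab
      have := LinearMap.congr_fun hab (1 : kk)
      change a * (1 : kk) = b * (1 : kk) at this
      rw [mul_one, mul_one] at this
      exact this
    · intro (f : kk →ₗ[kk] kk)
      refine ⟨f (1 : kk), ?_⟩
      apply LinearMap.ext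
      intro (w : kk)
      change f (1 : kk) * w = f w
      have : f w = f (w • (1 : kk)) := by simp
      rw [this, map_smul, smul_eq_mul, mul_comm]
  exact ⟨(isoOfBij F hF).symm⟩

/-- dual of `A` is `B` -/
lemma du_AA : Nonempty (du AA ≅ BB) := by
  let E : (kk × kk) × kk →ₗ[kk] Module.Dual kk (kk × kk × kk) :=
    { toFun := fun w =>
        { toFun := fun v => w.2 * v.1 + w.1.1 * v.2.1 + w.1.2 * v.2.2
          map_add' := fun a b => by simp; ring
          map_smul' := fun c a => by simp; ring }
      map_add' := fun a b => by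
        apply LinearMap.ext; intro v; simp; ring
      map_smul' := fun c a => by
        apply LinearMap.ext; intro v; simp; ring }
  have hE : ∀ w v, E w v = w.2 * v.1 + w.1.1 * v.2.1 + w.1.2 * v.2.2 := fun _ _ => rfl
  let F : BB ⟶ du AA := mkHom (X := BB) (Y := du AA) E
    (by
      intro w
      rw [xo_du, xo_DD]
      apply LinearMap.ext
      intro v
      change E _ v = E w (xo AA v)
      rw [xo_DD, hE, hE]
      simp)
    (by
      intro w
      rw [yo_du, yo_DD]
      apply LinearMap.ext
      intro v
      change E _ v = E w (yo AA v)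
      rw [yo_DD, hE, hE]
      simp)
  have hinj : Function.Injective E := by
    rw [injective_iff_map_eq_zero]
    rintro ⟨⟨a, b⟩, c⟩ h
    have h1 := LinearMap.congr_fun h (1, 0, 0)
    have h2 := LinearMap.congr_fun h (0, 1, 0)
    have h3 := LinearMap.congr_fun h (0, 0, 1)
    rw [hE] at h1 h2 h3
    simp at h1 h2 h3
    subst h1 h2 h3
    rfl
  have hF : Function.Bijective F.hom := by
    refine ⟨hinj, ?_⟩
    have hd : Module.finrank kk ((kk × kk) × kk) = Module.finrank kk (Module.Dual kk (kk × kk × kk)) := by
      rw [Subspace.dual_finrank_eq]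
      simp [Module.finrank_prod]
    exact (LinearMap.injective_iff_surjective_of_finrank_eq_finrank hd).1 hinj
  exact ⟨(isoOfBij F hF).symm⟩

end Pool.Agent.H268R3
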