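import Pool.Agent.H268R3.V4Core

set_option autoImplicit false

open CategoryTheory CategoryTheory.MonoidalCategory CategoryTheory.Limits

namespace Pool.Agent.H268R3

section ops
variable {V : Type} [AddCommGroup V] [Module kk V] (x y : V →ₗ[kk] V)

/-- the action attached to two commuting square-zero operators -/
noncomputable def opsRho (hx : ∀ v, x (x v) = 0) (hy : ∀ v, y (y v) = 0)
    (hxy : ∀ v, x (y v) = y (x v)) : Representation kk VV V where
  toFun g := (LinearMap.id + (Multiplicative.toAdd g.1 : kk) • x) ∘ₗ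
    (LinearMap.id + (Multiplicative.toAdd g.2 : kk) • y)
  map_one' := by
    ext v
    simp
  map_mul' g h := by
    ext v
    simp only [Prod.fst_mul, Prod.snd_mul, toAdd_mul, LinearMap.comp_apply, LinearMap.add_apply,
      LinearMap.id_apply, LinearMap.smul_apply, map_add, map_smul, Module.End.mul_apply, hx, hy, hxy,
      smul_zero, add_zero, add_smul, smul_add, map_zero]
    module

/-- the object attached to two commuting square-zero operators -/
noncomputable abbrev ofOps (hx : ∀ v, x (x v) = 0) (hy : ∀ v, y (y v) = 0)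
    (hxy : ∀ v, x (y v) = y (x v)) : RR := Rep.of (opsRho x y hx hy hxy)

lemma xo_ofOps (hx : ∀ v, x (x v) = 0) (hy : ∀ v, y (y v) = 0)
    (hxy : ∀ v, x (y v) = y (x v)) (v : V) : xo (ofOps x y hx hy hxy) v = x v := by
  rw [xo_apply]
  change ((LinearMap.id + (1 : kk) • x) ∘ₗ (LinearMap.id + (0 : kk) • y)) v + v = x v
  simp only [LinearMap.comp_apply, LinearMap.add_apply,
      LinearMap.id_apply, LinearMap.smul_apply, one_smul, zero_smul, add_zero]
  rw [add_comm, ← add_assoc, two_smul_zero, zero_add]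

lemma yo_ofOps (hx : ∀ v, x (x v) = 0) (hy : ∀ v, y (y v) = 0)
    (hxy : ∀ v, x (y v) = y (x v)) (v : V) : yo (ofOps x y hx hy hxy) v = y v := by
  rw [yo_apply]
  change ((LinearMap.id + (0 : kk) • x) ∘ₗ (LinearMap.id + (1 : kk) • y)) v + v = y v
  simp only [LinearMap.comp_apply, LinearMap.add_apply,
      LinearMap.id_apply, LinearMap.smul_apply, one_smul, zero_smul, add_zero]
  rw [add_comm, ← add_assoc, two_smul_zero, zero_add]

end ops

section free
variable (K : Type) [AddCommGroup K] [Module kk K]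

/-- x operator on the free module `K ⊗ kG` -/
def fx : (K × K × K × K) →ₗ[kk] (K × K × K × K) where
  toFun v := (0, v.1, 0, v.2.2.1)
  map_add' _ _ := by simp
  map_smul' _ _ := by simp
/-- y operator on the free module -/
def fy : (K × K × K × K) →ₗ[kk] (K × K × K × K) where
  toFun v := (0, 0, v.1, v.2.1)
  map_add' _ _ := by simp
  map_smul' _ _ := by simp

/-- the free module on `K`; coordinates are coefficients of `1, x, y, xy` -/
noncomputable abbrev FF : RR := ofOps (fx K) (fy K) (fun _ => rfl) (fun _ => rfl) (fun _ => rfl)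

lemma xo_FF (v : (FF K).V) : xo (FF K) v = fx K v := xo_ofOps _ _ _ _ _ v
lemma yo_FF (v : (FF K).V) : yo (FF K) v = fy K v := yo_ofOps _ _ _ _ _ v

variable {K}

/-- the morphism from the free module attached to a linear map -/
noncomputable def ffLift (X : RR) (U : K →ₗ[kk] X.V) : FF K ⟶ X :=
  mkHom (X := FF K) (Y := X)
    ((U ∘ₗ LinearMap.fst kk K (K × K × K))
      + (xo X ∘ₗ U ∘ₗ LinearMap.fst kk K (K × K) ∘ₗ LinearMap.snd kk K (K × K × K))
      + (yo X ∘ₗ U ∘ₗ LinearMap.fst kk K K ∘ₗ LinearMap.snd kk K (K × K) ∘ₗ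
          LinearMap.snd kk K (K × K × K))
      + (sg X ∘ₗ U ∘ₗ LinearMap.snd kk K K ∘ₗ LinearMap.snd kk K (K × K) ∘ₗ
          LinearMap.snd kk K (K × K × K)))
    (by
      intro v
      rw [xo_FF]
      obtain ⟨a, b, c, d⟩ := v
      simp only [fx, LinearMap.coe_mk, AddHom.coe_mk, LinearMap.add_apply, LinearMap.comp_apply,
        LinearMap.fst_apply, LinearMap.snd_apply, map_zero, map_add, sg_apply, xo_xo]
      simp)
    (by
      intro v
      rw [yo_FF]
      obtain ⟨a, b, c, d⟩ := v
      simp only [fy, LinearMap.coe_mk, AddHom.coe_mk, LinearMap.add_apply, LinearMap.comp_apply,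
        LinearMap.fst_apply, LinearMap.snd_apply, map_zero, map_add, sg_apply, yo_yo, xo_yo]
      simp)

lemma ffLift_apply (X : RR) (U : K →ₗ[kk] X.V) (a b c d : K) :
    (ffLift X U).hom (a, b, c, d) = U a + xo X (U b) + yo X (U c) + sg X (U d) := rfl

/-- the morphism to the free module attached to a linear map -/
noncomputable def ffColift (X : RR) (L : X.V →ₗ[kk] K) : X ⟶ FF K :=
  mkHom (X := X) (Y := FF K)
    (LinearMap.prod (L ∘ₗ sg X) (LinearMap.prod (L ∘ₗ yo X) (LinearMap.prod (L ∘ₗ xo X) L)))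
    (by
      intro v
      rw [xo_FF]
      change (L (sg X (xo X v)), L (yo X (xo X v)), L (xo X (xo X v)), L (xo X v))
        = ((0 : K), L (sg X v), (0 : K), L (xo X v))
      rw [sg_apply, sg_apply, xo_yo, xo_yo, xo_xo, map_zero, map_zero])
    (by
      intro v
      rw [yo_FF]
      change (L (sg X (yo X v)), L (yo X (yo X v)), L (xo X (yo X v)), L (yo X v))
        = ((0 : K), (0 : K), L (sg X v), L (yo X v))
      rw [sg_apply, sg_apply, yo_yo, map_zero, map_zero])

lemma ffColift_apply (X : RR) (L : X.V →ₗ[kk] K) (v : X.V) :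
    (ffColift X L).hom v = (L (sg X v), L (yo X v), L (xo X v), L v) := rfl

lemma ff_hom_ext {X : RR} (f : FF K ⟶ X) (a b c d : K) :
    f.hom (a, b, c, d) = f.hom (a, 0, 0, 0) + xo X (f.hom (b, 0, 0, 0))
      + yo X (f.hom (c, 0, 0, 0)) + sg X (f.hom (d, 0, 0, 0)) := by
  rw [← hom_xo, ← hom_yo, ← hom_sg, ← map_add, ← map_add, ← map_add]
  congr 1
  rw [sg_apply, xo_FF, yo_FF, yo_FF, xo_FF]
  simp [fx, fy]

instance ff_projective : Projective (FF K) where
  factors {E X} f e he := by
    have hs : Function.Surjective e.hom := (Rep.epi_iff_surjective e).1 he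
    obtain ⟨s, hs2⟩ := Module.projective_lifting_property (R := kk) (P := K)
      (e.hom.toLinearMap) (f.hom.toLinearMap ∘ₗ LinearMap.inl kk K (K × K × K)) hs
    refine ⟨ffLift E s, ?_⟩
    apply Rep.hom_ext
    apply Representation.IntertwiningMap.ext
    apply LinearMap.ext
    rintro ⟨a, b, c, d⟩
    have hk : ∀ a : K, e.hom (s a) = f.hom (a, 0, 0, 0) := fun a => LinearMap.congr_fun hs2 a
    change e.hom ((ffLift E s).hom (a, b, c, d)) = f.hom (a, b, c, d)
    rw [ffLift_apply, ff_hom_ext, map_add, map_add, map_add, hom_xo, hom_yo, hom_sg, hk, hk, hk, hk]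

lemma sg_FF (a b c d : K) : sg (FF K) (a, b, c, d) = (0, 0, 0, a) := by
  rw [sg_apply, xo_FF, yo_FF]
  rfl

lemma rk_FF [FiniteDimensional kk K] : rk (FF K) = Module.finrank kk K := by
  unfold rk
  have h : LinearMap.range (sg (FF K)) = LinearMap.range
      ((LinearMap.inr kk K (K × K × K)) ∘ₗ (LinearMap.inr kk K (K × K)) ∘ₗ (LinearMap.inr kk K K)) := by
    ext w
    constructor
    · rintro ⟨⟨a, b, c, d⟩, rfl⟩
      rw [sg_FF]
      exact ⟨a, rfl⟩
    · rintro ⟨a, rfl⟩
      exact ⟨(a, 0, 0, 0), sg_FF a 0 0 0⟩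
  rw [h]
  apply LinearMap.finrank_range_of_inj
  intro a b hab
  exact congrArg (fun v : K × K × K × K => v.2.2.2) hab

lemma finrank_FF [FiniteDimensional kk K] :
    Module.finrank kk (FF K).V = 4 * Module.finrank kk K := by
  change Module.finrank kk (K × K × K × K) = _
  rw [Module.finrank_prod, Module.finrank_prod, Module.finrank_prod]
  ring

lemma cd_FF [FiniteDimensional kk K] : cd (FF K) = 0 := by
  unfold cd
  rw [rk_FF, finrank_FF]
  push_cast
  ring

end free

/-- the combination map of a morphism from the free module and a morphism to `Y` -/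
noncomputable def combMap {X Y : RR} (φ : X ⟶ Y) {K : Type} [AddCommGroup K] [Module kk K]
    (L : X.V →ₗ[kk] K) : X ⟶ Y ⊞ FF K := biprod.lift φ (ffColift X L)

/-- splitting lemma, quotient version: `φ` surjective-like by dimension count -/
lemma split_quot {X Y : RR} [FiniteDimensional kk X.V] [FiniteDimensional kk Y.V]
    (φ : X ⟶ Y) {K : Type} [AddCommGroup K] [Module kk K] [FiniteDimensional kk K]
    (L : X.V →ₗ[kk] K)
    (hdim : Module.finrank kk X.V = Module.finrank kk Y.V + 4 * Module.finrank kk K)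
    (hinj : ∀ v : X.V, φ.hom v = 0 → L (sg X v) = 0 → L (yo X v) = 0 → L (xo X v) = 0 →
      L v = 0 → v = 0) : Nonempty (X ≅ Y ⊞ FF K) := by
  have hfd : FiniteDimensional kk (FF K).V := by
    change FiniteDimensional kk (K × K × K × K)
    infer_instance
  let f : X.V →ₗ[kk] (Y.V × (FF K).V) := LinearMap.prod φ.hom.toLinearMap (ffColift X L).hom.toLinearMap
  have hf : Function.Injective f := by
    rw [injective_iff_map_eq_zero]
    intro v hv
    have h1 : φ.hom v = 0 := congrArg Prod.fst hv
    have h2 : (ffColift X L).hom v = 0 := congrArg Prod.snd hv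
    rw [ffColift_apply] at h2
    exact hinj v h1 (congrArg Prod.fst h2) (congrArg (fun w => w.2.1) h2)
      (congrArg (fun w => w.2.2.1) h2) (congrArg (fun w => w.2.2.2) h2)
  have hdim2 : Module.finrank kk X.V = Module.finrank kk (Y.V × (FF K).V) := by
    rw [Module.finrank_prod, finrank_FF, hdim]
  have hbij : Function.Bijective f :=
    ⟨hf, (LinearMap.injective_iff_surjective_of_finrank_eq_finrank hdim2).1 hf⟩
  refine ⟨isoOfBij (combMap φ L) ?_⟩
  have he : ∀ v, linOfBiprod Y (FF K) ((combMap φ L).hom v) = f v := by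
    intro v
    change ((biprod.fst : Y ⊞ FF K ⟶ Y).hom ((combMap φ L).hom v),
      (biprod.snd : Y ⊞ FF K ⟶ FF K).hom ((combMap φ L).hom v)) = (φ.hom v, (ffColift X L).hom v)
    have h1 : (biprod.fst : Y ⊞ FF K ⟶ Y).hom ((combMap φ L).hom v) = φ.hom v := by
      change (combMap φ L ≫ biprod.fst).hom v = _
      rw [combMap, biprod.lift_fst]
    have h2 : (biprod.snd : Y ⊞ FF K ⟶ FF K).hom ((combMap φ L).hom v) = (ffColift X L).hom v := by
      change (combMap φ L ≫ biprod.snd).hom v = _
      rw [combMap, biprod.lift_snd]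
    rw [h1, h2]
  have he2 : (fun v => linOfBiprod Y (FF K) ((combMap φ L).hom v)) = f := funext he
  have := hbij
  rw [← he2] at this
  have h3 : Function.Bijective (linOfBiprod Y (FF K)) := (linOfBiprod Y (FF K)).bijective
  exact (Function.Bijective.of_comp_iff' h3 _).1 this

end Pool.Agent.H268R3
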