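import Pool.Agent.H268R3.V4Tensor

set_option autoImplicit false

open CategoryTheory CategoryTheory.MonoidalCategory CategoryTheory.Limits

namespace Pool.Agent.H268R3

section D
variable {U V : Type} [AddCommGroup U] [Module kk U] [AddCommGroup V] [Module kk V]

/-- operator of a module of Loewy length two -/
def dOp (s : U →ₗ[kk] V) : (U × V) →ₗ[kk] (U × V) :=
  LinearMap.inr kk U V ∘ₗ s ∘ₗ LinearMap.fst kk U V

/-- the module of Loewy length two attached to a Kronecker module -/
noncomputable abbrev DD (s t : U →ₗ[kk] V) : RR :=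
  ofOps (dOp s) (dOp t) (fun v => by simp [dOp]) (fun v => by simp [dOp]) (fun v => by simp [dOp])

lemma xo_DD (s t : U →ₗ[kk] V) (v : U × V) : xo (DD s t) v = (0, s v.1) := xo_ofOps _ _ _ _ _ v
lemma yo_DD (s t : U →ₗ[kk] V) (v : U × V) : yo (DD s t) v = (0, t v.1) := yo_ofOps _ _ _ _ _ v
lemma sg_DD (s t : U →ₗ[kk] V) (v : U × V) : sg (DD s t) v = 0 := by
  rw [sg_apply, yo_DD, xo_DD]
  simp

lemma cd_DD (s t : U →ₗ[kk] V) [FiniteDimensional kk U] [FiniteDimensional kk V] :
    cd (DD s t) = Module.finrank kk U + Module.finrank kk V := by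
  have h : rk (DD s t) = 0 := by
    unfold rk
    have : LinearMap.range (sg (DD s t)) = ⊥ := by
      rw [LinearMap.range_eq_bot]
      exact LinearMap.ext (fun v => sg_DD s t v)
    rw [this, finrank_bot]
  unfold cd
  rw [h]
  change ((Module.finrank kk (U × V) : ℕ) : ℤ) - 4 * ((0 : ℕ) : ℤ) = _
  rw [Module.finrank_prod]
  push_cast; ring

end D

/-- the module `Ω^{-1}(k)` : top `k`, socle `k²` -/
noncomputable abbrev AA : RR := DD (LinearMap.inl kk kk kk) (LinearMap.inr kk kk kk)
/-- the module `Ω(k)` : top `k²`, socle `k` -/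
noncomputable abbrev BB : RR := DD (LinearMap.fst kk kk kk) (LinearMap.snd kk kk kk)

section coords
variable (X : RR)

/-- coordinates on `A ⊗ X` -/
noncomputable def ce : (AA ⊗ X : RR).V ≃ₗ[kk] X.V × X.V × X.V :=
  (TensorProduct.prodLeft kk kk kk (kk × kk) X.V).trans
    (LinearEquiv.prodCongr (TensorProduct.lid kk X.V)
      ((TensorProduct.prodLeft kk kk kk kk X.V).trans
        (LinearEquiv.prodCongr (TensorProduct.lid kk X.V) (TensorProduct.lid kk X.V))))

lemma ce_tmul (a b c : kk) (v : X.V) :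
    ce X (TensorProduct.tmul kk ((a, b, c) : kk × kk × kk) v) = (a • v, b • v, c • v) := rfl

lemma ce_xo (w : (AA ⊗ X : RR).V) : ce X (xo (AA ⊗ X) w) =
    (xo X (ce X w).1, (ce X w).1 + xo X (ce X w).1 + xo X (ce X w).2.1, xo X (ce X w).2.2) := by
  induction w using TensorProduct.induction_on with
  | zero => simp only [map_zero]; simp; rfl
  | tmul a v =>
    obtain ⟨a, b, c⟩ := a
    rw [ce_tmul]
    have h : xo (AA ⊗ X) (TensorProduct.tmul kk ((a, b, c) : kk × kk × kk) v)
        = TensorProduct.tmul kk (AA.ρ g1 (a, b, c)) (X.ρ g1 v)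
          + TensorProduct.tmul kk ((a, b, c) : kk × kk × kk) v := rfl
    rw [h, rho_g1, rho_g1, xo_DD, map_add]
    have h2 : ((a, b, c) : kk × kk × kk) + (0, LinearMap.inl kk kk kk a) = (a, b + a, c) := by
      simp
    rw [h2, ce_tmul, ce_tmul]
    simp only [smul_add, map_smul, add_smul, Prod.mk_add_mk]
    refine Prod.ext ?_ (Prod.ext ?_ ?_)
    · change a • v + a • (xo X) v + a • v = a • (xo X) v
      rw [add_right_comm, two_smul_zero, zero_add]
    · change b • v + a • v + (b • (xo X) v + a • (xo X) v) + b • v = a • v + a • (xo X) v + b • (xo X) v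
      have : b • v + a • v + (b • (xo X) v + a • (xo X) v) + b • v
        = (b • v + b • v) + (a • v + a • (xo X) v + b • (xo X) v) := by abel
      rw [this, two_smul_zero, zero_add]
    · change c • v + c • (xo X) v + c • v = c • (xo X) v
      rw [add_right_comm, two_smul_zero, zero_add]
  | add w w' h h' =>
    rw [map_add, map_add, h, h', map_add]
    simp only [Prod.fst_add, Prod.snd_add, map_add, Prod.mk_add_mk]
    refine Prod.ext ?_ (Prod.ext ?_ ?_)
    · rfl
    · change _ + _ = _
      abel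
    · rfl

lemma ce_yo (w : (AA ⊗ X : RR).V) : ce X (yo (AA ⊗ X) w) =
    (yo X (ce X w).1, yo X (ce X w).2.1, (ce X w).1 + yo X (ce X w).1 + yo X (ce X w).2.2) := by
  induction w using TensorProduct.induction_on with
  | zero => simp only [map_zero]; simp; rfl
  | tmul a v =>
    obtain ⟨a, b, c⟩ := a
    rw [ce_tmul]
    have h : yo (AA ⊗ X) (TensorProduct.tmul kk ((a, b, c) : kk × kk × kk) v)
        = TensorProduct.tmul kk (AA.ρ g2 (a, b, c)) (X.ρ g2 v)
          + TensorProduct.tmul kk ((a, b, c) : kk × kk × kk) v := rfl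
    rw [h, rho_g2, rho_g2, yo_DD, map_add]
    have h2 : ((a, b, c) : kk × kk × kk) + (0, LinearMap.inr kk kk kk a) = (a, b, c + a) := by
      simp
    rw [h2, ce_tmul, ce_tmul]
    simp only [smul_add, map_smul, add_smul, Prod.mk_add_mk]
    refine Prod.ext ?_ (Prod.ext ?_ ?_)
    · change a • v + a • (yo X) v + a • v = a • (yo X) v
      rw [add_right_comm, two_smul_zero, zero_add]
    · change b • v + b • (yo X) v + b • v = b • (yo X) v
      rw [add_right_comm, two_smul_zero, zero_add]
    · change c • v + a • v + (c • (yo X) v + a • (yo X) v) + c • v = a • v + a • (yo X) v + c • (yo X) v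
      have : c • v + a • v + (c • (yo X) v + a • (yo X) v) + c • v
        = (c • v + c • v) + (a • v + a • (yo X) v + c • (yo X) v) := by abel
      rw [this, two_smul_zero, zero_add]
  | add w w' h h' =>
    rw [map_add, map_add, h, h', map_add]
    simp only [Prod.fst_add, Prod.snd_add, map_add, Prod.mk_add_mk]
    refine Prod.ext ?_ (Prod.ext ?_ ?_)
    · rfl
    · rfl
    · change _ + _ = _
      abel

end coords

section step
variable {U V : Type} [AddCommGroup U] [Module kk U] [AddCommGroup V] [Module kk V]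
  (s t : U →ₗ[kk] V)

/-- the next socle space -/
abbrev NV : Type := (V × V) ⧸ (LinearMap.range (LinearMap.prod t s))

/-- new `s` -/
def ns : V →ₗ[kk] NV s t := Submodule.mkQ _ ∘ₗ LinearMap.inl kk V V
/-- new `t` -/
def nt : V →ₗ[kk] NV s t := Submodule.mkQ _ ∘ₗ LinearMap.inr kk V V

lemma ns_nt (u : U) : ns s t (t u) + nt s t (s u) = 0 := by
  change Submodule.Quotient.mk (t u, 0) + Submodule.Quotient.mk (0, s u) = 0
  rw [← Submodule.Quotient.mk_add, Submodule.Quotient.mk_eq_zero]
  exact ⟨u, by simp⟩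

lemma ns_nt' (u : U) : nt s t (s u) = ns s t (t u) := by
  have h := ns_nt s t u
  rw [add_eq_zero_iff_eq_neg, neg_eq'] at h
  exact h.symm

/-- the surjection `A ⊗ D(U,V) → D(V,V')` in coordinates -/
def stepMap : ((U × V) × (U × V) × (U × V)) →ₗ[kk] (V × NV s t) :=
  LinearMap.prod
    (LinearMap.snd kk U V ∘ₗ LinearMap.fst kk (U × V) ((U × V) × (U × V))
      + s ∘ₗ LinearMap.fst kk U V ∘ₗ LinearMap.fst kk (U × V) (U × V) ∘ₗ
          LinearMap.snd kk (U × V) ((U × V) × (U × V))
      + t ∘ₗ LinearMap.fst kk U V ∘ₗ LinearMap.snd kk (U × V) (U × V) ∘ₗ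
          LinearMap.snd kk (U × V) ((U × V) × (U × V)))
    (ns s t ∘ₗ LinearMap.snd kk U V ∘ₗ LinearMap.fst kk (U × V) (U × V) ∘ₗ
          LinearMap.snd kk (U × V) ((U × V) × (U × V))
      + nt s t ∘ₗ LinearMap.snd kk U V ∘ₗ LinearMap.snd kk (U × V) (U × V) ∘ₗ
          LinearMap.snd kk (U × V) ((U × V) × (U × V))
      + ns s t ∘ₗ s ∘ₗ LinearMap.fst kk U V ∘ₗ LinearMap.fst kk (U × V) (U × V) ∘ₗ
          LinearMap.snd kk (U × V) ((U × V) × (U × V))
      + nt s t ∘ₗ t ∘ₗ LinearMap.fst kk U V ∘ₗ LinearMap.snd kk (U × V) (U × V) ∘ₗ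
          LinearMap.snd kk (U × V) ((U × V) × (U × V)))

lemma stepMap_apply (w : ((U × V) × (U × V) × (U × V))) : stepMap s t w =
  (w.1.2 + s w.2.1.1 + t w.2.2.1,
    ns s t w.2.1.2 + nt s t w.2.2.2 + ns s t (s w.2.1.1) + nt s t (t w.2.2.1)) := rfl

/-- the surjection as a morphism -/
noncomputable def stepHom : (AA ⊗ DD s t : RR) ⟶ DD (ns s t) (nt s t) :=
  mkHom (X := (AA ⊗ DD s t : RR)) (Y := DD (ns s t) (nt s t))
    (stepMap s t ∘ₗ (ce (DD s t)).toLinearMap)
    (by
      intro w
      rw [xo_DD]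
      change stepMap s t (ce (DD s t) (xo _ w)) = (0, ns s t (stepMap s t (ce (DD s t) w)).1)
      rw [ce_xo]
      generalize ce (DD s t) w = c
      obtain ⟨⟨p1, p2⟩, ⟨q1, q2⟩, ⟨r1, r2⟩⟩ := c
      rw [stepMap_apply, stepMap_apply]
      dsimp only
      rw [xo_DD, xo_DD, xo_DD]
      simp only [Prod.mk_add_mk, Prod.fst_add, Prod.snd_add, map_add, add_zero, zero_add]
      refine Prod.ext ?_ ?_
      · simp [two_smul_zero]
      · change _ = _ + _
        simp only [map_zero, ns_nt', add_zero]
        have : (ns s t) p2 + (ns s t) (s p1) + (ns s t) (s q1) + (ns s t) (t r1) + (ns s t) (s p1)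
          = ((ns s t) (s p1) + (ns s t) (s p1)) + ((ns s t) p2 + (ns s t) (s q1) + (ns s t) (t r1)) := by
          abel
        rw [this, two_smul_zero, zero_add])
    (by
      intro w
      rw [yo_DD]
      change stepMap s t (ce (DD s t) (yo _ w)) = (0, nt s t (stepMap s t (ce (DD s t) w)).1)
      rw [ce_yo]
      generalize ce (DD s t) w = c
      obtain ⟨⟨p1, p2⟩, ⟨q1, q2⟩, ⟨r1, r2⟩⟩ := c
      rw [stepMap_apply, stepMap_apply]
      dsimp only
      rw [yo_DD, yo_DD, yo_DD]
      simp only [Prod.mk_add_mk, Prod.fst_add, Prod.snd_add, map_add, add_zero, zero_add]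
      refine Prod.ext ?_ ?_
      · simp [two_smul_zero]
      · change _ = _ + _
        simp only [map_zero, ns_nt', add_zero]
        have : (ns s t) (t q1) + ((nt s t) p2 + (nt s t) (t p1) + (nt s t) (t r1)) + (nt s t) (t p1)
          = ((nt s t) (t p1) + (nt s t) (t p1)) + ((nt s t) p2 + (ns s t) (t q1) + (nt s t) (t r1)) := by
          abel
        rw [this, two_smul_zero, zero_add])

lemma stepHom_apply (w : (AA ⊗ DD s t : RR).V) :
    (stepHom s t).hom w = stepMap s t (ce (DD s t) w) := rfl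

lemma finrank_NV [FiniteDimensional kk U] [FiniteDimensional kk V] (ht : Function.Injective t) :
    Module.finrank kk (NV s t) + Module.finrank kk U = 2 * Module.finrank kk V := by
  have h1 := Submodule.finrank_quotient_add_finrank (LinearMap.range (LinearMap.prod t s))
  have h2 : Module.finrank kk (LinearMap.range (LinearMap.prod t s)) = Module.finrank kk U := by
    apply LinearMap.finrank_range_of_inj
    intro a b hab
    exact ht (congrArg Prod.fst hab)
  rw [h2, Module.finrank_prod] at h1
  have h3 : Module.finrank kk (NV s t) + Module.finrank kk U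
    = Module.finrank kk V + Module.finrank kk V := h1
  omega

lemma nt_inj (ht : Function.Injective t) : Function.Injective (nt s t) := by
  rw [injective_iff_map_eq_zero]
  intro v hv
  have h1 : ((0 : V), v) ∈ LinearMap.range (LinearMap.prod t s) :=
    (Submodule.Quotient.mk_eq_zero _).1 hv
  obtain ⟨u, hu⟩ := h1
  have h2 : t u = 0 := congrArg Prod.fst hu
  have h3 : s u = v := congrArg Prod.snd hu
  have h4 : u = 0 := ht (by rw [h2, map_zero])
  rw [← h3, h4, map_zero]

lemma step_iso [FiniteDimensional kk U] [FiniteDimensional kk V] (ht : Function.Injective t) :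
    Nonempty ((AA ⊗ DD s t : RR) ≅ DD (ns s t) (nt s t) ⊞ FF U) := by
  obtain ⟨τ, hτ⟩ := LinearMap.exists_leftInverse_of_injective t (LinearMap.ker_eq_bot.2 ht)
  have hτ2 : ∀ u, τ (t u) = u := fun u => LinearMap.congr_fun hτ u
  have hfd1 : FiniteDimensional kk (DD s t).V := by
    change FiniteDimensional kk (U × V); infer_instance
  have hfd2 : FiniteDimensional kk (DD (ns s t) (nt s t)).V := by
    change FiniteDimensional kk (V × NV s t); infer_instance
  have hdim := finrank_NV s t ht
  apply split_quot (stepHom s t)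
    (τ ∘ₗ LinearMap.snd kk U V ∘ₗ LinearMap.fst kk (U × V) (U × V) ∘ₗ
      LinearMap.snd kk (U × V) ((U × V) × (U × V)) ∘ₗ (ce (DD s t)).toLinearMap)
  · rw [LinearEquiv.finrank_eq (ce (DD s t))]
    change Module.finrank kk ((U × V) × (U × V) × (U × V)) = Module.finrank kk (V × NV s t) + _
    simp only [Module.finrank_prod]
    omega
  · intro w h0 h1 h2 h3 h4
    rw [stepHom_apply, stepMap_apply] at h0
    change τ (ce (DD s t) (sg _ w)).2.1.2 = 0 at h1
    change τ (ce (DD s t) (yo _ w)).2.1.2 = 0 at h2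
    change τ (ce (DD s t) (xo _ w)).2.1.2 = 0 at h3
    change τ (ce (DD s t) w).2.1.2 = 0 at h4
    rw [sg_apply, ce_xo, ce_yo] at h1
    rw [ce_yo] at h2
    rw [ce_xo] at h3
    dsimp only at h1 h2 h3
    rw [xo_DD, xo_DD, yo_DD, yo_DD] at h1
    rw [yo_DD] at h2
    rw [xo_DD, xo_DD] at h3
    have hw : ce (DD s t) w = 0 → w = 0 := fun h => (ce (DD s t)).map_eq_zero_iff.1 h
    apply hw
    revert h0 h1 h2 h3 h4
    generalize ce (DD s t) w = c
    obtain ⟨⟨p1, p2⟩, ⟨q1, q2⟩, ⟨r1, r2⟩⟩ := c
    intro h0 h1 h2 h3 h4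
    simp only [Prod.mk_add_mk, Prod.fst_add, Prod.snd_add, map_add, add_zero,
      zero_add, map_zero, hτ2] at h1 h2 h3
    subst h1 h2
    simp only [map_zero, add_zero] at h3 h0 h4
    have h5 : p2 + t r1 = 0 := congrArg Prod.fst h0
    have h6 := congrArg Prod.snd h0
    have h7 : r1 = 0 := by
      have := congrArg τ h5
      rw [map_add, hτ2, h3, zero_add, map_zero] at this
      exact this
    subst h7
    rw [map_zero, add_zero] at h5
    subst h5
    simp only [map_zero, add_zero] at h6
    have h8 : (q2, r2) ∈ LinearMap.range (LinearMap.prod t s) := by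
      apply (Submodule.Quotient.mk_eq_zero _).1
      have : (q2, r2) = (q2, 0) + (0, r2) := by simp
      rw [this]
      exact h6
    obtain ⟨u, hu⟩ := h8
    have h9 : t u = q2 := congrArg Prod.fst hu
    have h10 : s u = r2 := congrArg Prod.snd hu
    have h11 : u = 0 := by rw [← hτ2 u, h9, h4]
    subst h11
    rw [map_zero] at h9 h10
    subst h9 h10
    rfl

end step

end Pool.Agent.H268R3
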