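import Mathlib

set_option autoImplicit false

namespace Pool.Agent.H268R3

open PowerSeries

/-- path counts -/
def pc : ℕ → ℤ → ℤ
  | 0, j => if j = 0 then 1 else 0
  | (n + 1), j => pc n (j + 1) + pc n (j - 1)

lemma pc_choose (n : ℕ) : ∀ i : ℤ, pc n (2 * i - n) = if 0 ≤ i then (n.choose i.toNat : ℤ) else 0 := by
  induction n with
  | zero =>
    intro i
    simp only [pc, Nat.cast_zero, sub_zero]
    rcases lt_trichotomy i 0 with h | h | h
    · rw [if_neg (by omega), if_neg (by omega)]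
    · subst h; simp
    · rw [if_neg (by omega), if_pos (by omega)]
      obtain ⟨m, hm⟩ := Int.eq_ofNat_of_zero_le (le_of_lt h)
      subst hm
      have : (m : ℤ).toNat = m := Int.toNat_natCast m
      rw [this]
      cases m with
      | zero => simp at h
      | succ m => simp
  | succ n ih =>
    intro i
    have h1 : 2 * i - ((n + 1 : ℕ) : ℤ) + 1 = 2 * i - n := by push_cast; ring
    have h2 : 2 * i - ((n + 1 : ℕ) : ℤ) - 1 = 2 * (i - 1) - n := by push_cast; ring
    rw [pc, h1, h2, ih, ih]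
    rcases lt_trichotomy i 0 with h | h | h
    · rw [if_neg (by omega), if_neg (by omega), if_neg (by omega)]; rfl
    · subst h; simp
    · rw [if_pos (by omega), if_pos (by omega), if_pos (by omega)]
      obtain ⟨m, hm⟩ := Int.eq_ofNat_of_zero_le (show 0 ≤ i - 1 by omega)
      have hi : i = ((m + 1 : ℕ) : ℤ) := by push_cast; omega
      rw [hm, hi]
      rw [Int.toNat_natCast]
      have : (Int.ofNat m).toNat = m := rfl
      have h3 : ((m : ℕ) : ℤ).toNat = m := Int.toNat_natCast m
      rw [h3, Nat.choose_succ_succ]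
      push_cast; ring

lemma pc_odd (n : ℕ) : ∀ j : ℤ, Odd ((n : ℤ) + j) → pc n j = 0 := by
  induction n with
  | zero =>
    intro j hj
    simp only [pc]
    rw [if_neg]
    rintro rfl
    simp at hj
  | succ n ih =>
    intro j hj
    rw [pc, ih, ih, add_zero]
    · obtain ⟨k, hk⟩ := hj
      exact ⟨k - 1, by push_cast at hk; omega⟩
    · obtain ⟨k, hk⟩ := hj
      exact ⟨k, by push_cast at hk; omega⟩

lemma pc_even_zero (m : ℕ) : pc (2 * m) 0 = (Nat.centralBinom m : ℤ) := by
  have h := pc_choose (2 * m) m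
  have h1 : 2 * (m : ℤ) - ((2 * m : ℕ) : ℤ) = 0 := by push_cast; ring
  rw [h1] at h
  rw [h, if_pos (by omega), Int.toNat_natCast]
  rfl

lemma pc_odd_zero (m : ℕ) : pc (2 * m + 1) 0 = 0 :=
  pc_odd _ _ ⟨m, by push_cast; ring⟩

/-- generating series of central path counts -/
noncomputable def GG : ℚ⟦X⟧ := PowerSeries.mk (fun n => (pc n 0 : ℚ))

lemma pc_rec (n : ℕ) : ((n : ℚ) + 2) * (pc (n + 2) 0 : ℚ) = 4 * ((n : ℚ) + 1) * (pc n 0 : ℚ) := by
  rcases Nat.even_or_odd' n with ⟨m, rfl | rfl⟩
  · have h2 : 2 * m + 2 = 2 * (m + 1) := by ring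
    rw [h2, pc_even_zero, pc_even_zero]
    have h := Nat.succ_mul_centralBinom_succ m
    have h' : ((m : ℚ) + 1) * (Nat.centralBinom (m + 1) : ℚ)
        = 2 * (2 * m + 1) * (Nat.centralBinom m : ℚ) := by exact_mod_cast h
    push_cast
    linear_combination 2 * h'
  · have h2 : 2 * m + 1 + 2 = 2 * (m + 1) + 1 := by ring
    rw [h2, pc_odd_zero, pc_odd_zero]
    simp

lemma GG_ode : (1 - 4 * X ^ 2) * (PowerSeries.derivative ℚ GG) = 4 * X * GG := by
  ext n
  rw [sub_mul, one_mul, map_sub]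
  have e4 : (4 : ℚ⟦X⟧) = PowerSeries.C (4 : ℚ) := (map_ofNat (PowerSeries.C) 4).symm
  rw [e4, mul_assoc, mul_assoc, PowerSeries.coeff_C_mul, PowerSeries.coeff_C_mul]
  rcases n with _ | _ | n
  · simp [PowerSeries.coeff_derivative, GG, PowerSeries.coeff_zero_X_mul, pow_two, mul_assoc, pc]
  · rw [PowerSeries.coeff_derivative]
    have h1 : (PowerSeries.coeff (0 + 1)) (X ^ 2 * PowerSeries.derivative ℚ GG) = 0 := by
      rw [PowerSeries.coeff_X_pow_mul']
      simp
    rw [h1]
    have h2 : (PowerSeries.coeff (0 + 1)) (X * GG) = (pc 0 0 : ℚ) := by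
      rw [PowerSeries.coeff_succ_X_mul]; simp [GG]
    rw [h2]
    have := pc_rec 0
    simp [GG] at this ⊢
    linarith
  · rw [PowerSeries.coeff_derivative]
    have h1 : (PowerSeries.coeff (n + 1 + 1)) (X ^ 2 * PowerSeries.derivative ℚ GG)
        = (pc (n + 1) 0 : ℚ) * (n + 1) := by
      rw [PowerSeries.coeff_X_pow_mul', if_pos (by omega)]
      have : n + 1 + 1 - 2 = n := by omega
      rw [this, PowerSeries.coeff_derivative]
      simp [GG]
    have h2 : (PowerSeries.coeff (n + 1 + 1)) (X * GG) = (pc (n + 1) 0 : ℚ) := by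
      rw [PowerSeries.coeff_succ_X_mul]; simp [GG]
    rw [h1, h2]
    have := pc_rec (n + 1)
    have h3 : (PowerSeries.coeff (n + 1 + 1 + 1)) GG = (pc (n + 1 + 2) 0 : ℚ) := by simp [GG]
    rw [h3]
    push_cast at this ⊢
    linarith

lemma GG_sq : (1 - 4 * X ^ 2) * GG ^ 2 = 1 := by
  apply PowerSeries.derivative.ext
  · have e4 : (4 : ℚ⟦X⟧) = PowerSeries.C (4 : ℚ) := (map_ofNat (PowerSeries.C) 4).symm
    have h1 : PowerSeries.derivative ℚ (1 - 4 * X ^ 2 : ℚ⟦X⟧) = -(8 * X) := by
      rw [map_sub, PowerSeries.derivative_one, Derivation.leibniz, e4, PowerSeries.derivative_C,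
        smul_zero, add_zero, pow_two, Derivation.leibniz, PowerSeries.derivative_X]
      simp only [smul_eq_mul, mul_one]
      rw [← e4]
      ring
    have h2 : PowerSeries.derivative ℚ (GG ^ 2) = 2 * GG * PowerSeries.derivative ℚ GG := by
      rw [pow_two, Derivation.leibniz]
      simp only [smul_eq_mul]
      ring
    rw [Derivation.leibniz, h1, PowerSeries.derivative_one, h2]
    simp only [smul_eq_mul]
    have h := GG_ode
    linear_combination (2 * GG) * h
  · simp [GG, pc]

/-- the sequences of core dimensions -/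
lemma rec_key (a : ℕ → ℤ → ℤ) (h0 : ∀ j, a 0 j = 2 * |j| + 1)
    (h1 : ∀ n j, a (n + 1) j = a n (j + 1) + a n (j - 1)) (n : ℕ) :
    ∀ j, a (n + 1) j = 2 * a n j + 4 * pc n j := by
  induction n with
  | zero =>
    intro j
    rw [h1, h0, h0, h0]
    simp only [pc]
    rcases lt_trichotomy j 0 with h | h | h
    · rw [if_neg (by omega), abs_of_nonpos (by omega : j + 1 ≤ 0), abs_of_neg (by omega : j - 1 < 0),
        abs_of_neg h]
      ring
    · subst h; simp
    · rw [if_neg (by omega), abs_of_pos (by omega : 0 < j + 1), abs_of_nonneg (by omega : 0 ≤ j - 1),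
        abs_of_pos h]
      ring
  | succ n ih =>
    intro j
    rw [h1 (n + 1) j, ih, ih, h1 n j, pc]
    ring

theorem not_rational (a : ℕ → ℤ → ℤ) (h0 : ∀ j, a 0 j = 2 * |j| + 1)
    (h1 : ∀ n j, a (n + 1) j = a n (j + 1) + a n (j - 1))
    (P Q : Polynomial ℚ) (hQ : Q ≠ 0)
    (h : (Q : PowerSeries ℚ) * PowerSeries.mk (fun n : ℕ => (a n 0 : ℚ)) = (P : PowerSeries ℚ)) :
    False := by
  have key : (1 - 2 * X) * PowerSeries.mk (fun n : ℕ => (a n 0 : ℚ)) = 1 + 4 * X * GG := by
    ext n
    have e4 : (4 : ℚ⟦X⟧) = PowerSeries.C (4 : ℚ) := (map_ofNat (PowerSeries.C) 4).symm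
    have e2 : (2 : ℚ⟦X⟧) = PowerSeries.C (2 : ℚ) := (map_ofNat (PowerSeries.C) 2).symm
    rw [sub_mul, one_mul, map_sub, map_add, e2, e4, mul_assoc, mul_assoc,
      PowerSeries.coeff_C_mul, PowerSeries.coeff_C_mul]
    cases n with
    | zero => simp [h0]
    | succ n =>
      rw [PowerSeries.coeff_succ_X_mul, PowerSeries.coeff_succ_X_mul]
      simp only [PowerSeries.coeff_mk, GG, PowerSeries.coeff_one]
      rw [if_neg (by omega), rec_key a h0 h1 n 0]
      push_cast; ring
  -- polynomials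
  let R : Polynomial ℚ := 4 * Polynomial.X * Q
  let S : Polynomial ℚ := P * (1 - 2 * Polynomial.X) - Q
  have hRS : (R : PowerSeries ℚ) * GG = (S : PowerSeries ℚ) := by
    have e4 : ((4 : Polynomial ℚ) : PowerSeries ℚ) = 4 := by
      have := map_ofNat (Polynomial.coeToPowerSeries.ringHom (R := ℚ)) 4
      simpa using this
    have e2 : ((2 : Polynomial ℚ) : PowerSeries ℚ) = 2 := by
      have := map_ofNat (Polynomial.coeToPowerSeries.ringHom (R := ℚ)) 2
      simpa using this
    simp only [R, S, Polynomial.coe_mul, Polynomial.coe_sub, Polynomial.coe_X, Polynomial.coe_one,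
      e4, e2, ← h]
    linear_combination (-(Q : PowerSeries ℚ)) * key
  have hpoly : R ^ 2 = S ^ 2 * (1 - 4 * Polynomial.X ^ 2) := by
    apply Polynomial.coe_injective
    have e4 : ((4 : Polynomial ℚ) : PowerSeries ℚ) = 4 := by
      have := map_ofNat (Polynomial.coeToPowerSeries.ringHom (R := ℚ)) 4
      simpa using this
    simp only [Polynomial.coe_mul, Polynomial.coe_sub, Polynomial.coe_X, Polynomial.coe_one,
      Polynomial.coe_pow, e4]
    rw [← hRS]
    have := GG_sq
    linear_combination (-(R : PowerSeries ℚ) ^ 2) * this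
  have hR : R ≠ 0 := by
    simp only [R]
    exact mul_ne_zero (mul_ne_zero (by norm_num) Polynomial.X_ne_zero) hQ
  have hS : S ≠ 0 := by
    intro hS
    rw [hS] at hpoly
    have : R ^ 2 = 0 := by rw [hpoly]; ring
    exact hR (pow_eq_zero_iff (two_ne_zero) |>.1 this)
  have hfac : (1 - 4 * Polynomial.X ^ 2 : Polynomial ℚ)
      = (Polynomial.X - Polynomial.C (1 / 2)) * (-4 * Polynomial.X - 2) := by
    have : (Polynomial.C (1 / 2 : ℚ)) * 2 = 1 := by
      have h2 : (2 : Polynomial ℚ) = Polynomial.C 2 := (map_ofNat Polynomial.C 2).symm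
      rw [h2, ← Polynomial.C_mul]; norm_num
    linear_combination (-(2 * Polynomial.X + 1)) * this
  have hne : (-4 * Polynomial.X - 2 : Polynomial ℚ) ≠ 0 := by
    intro h0
    have := congrArg (Polynomial.eval 0) h0
    norm_num at this
  have hne1 : (1 - 4 * Polynomial.X ^ 2 : Polynomial ℚ) ≠ 0 := by
    rw [hfac]
    exact mul_ne_zero (Polynomial.X_sub_C_ne_zero _) hne
  have hm1 : Polynomial.rootMultiplicity (1 / 2) (1 - 4 * Polynomial.X ^ 2 : Polynomial ℚ) = 1 := by
    rw [hfac, Polynomial.rootMultiplicity_mul (by rw [← hfac]; exact hne1),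
      Polynomial.rootMultiplicity_X_sub_C_self, Polynomial.rootMultiplicity_eq_zero]
    intro h0
    unfold Polynomial.IsRoot at h0
    norm_num at h0
  have hm := congrArg (Polynomial.rootMultiplicity (1 / 2)) hpoly
  rw [Polynomial.rootMultiplicity_mul (mul_ne_zero (pow_ne_zero 2 hS) hne1), hm1, pow_two, pow_two,
    Polynomial.rootMultiplicity_mul (mul_ne_zero hR hR),
    Polynomial.rootMultiplicity_mul (mul_ne_zero hS hS)] at hm
  omega

end Pool.Agent.H268R3
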