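import Pool.Agent.H268R3.V4Free

set_option autoImplicit false

open CategoryTheory CategoryTheory.MonoidalCategory CategoryTheory.Limits

namespace Pool.Agent.H268R3

section
variable {X : RR} {K : Type} [AddCommGroup K] [Module kk K]
  (U : K →ₗ[kk] X.V) (L : X.V →ₗ[kk] K) (hLU : ∀ a, L (sg X (U a)) = a)

lemma sg_xo (X : RR) (v : X.V) : sg X (xo X v) = 0 := by
  rw [sg_apply, ← xo_yo X v, xo_xo]
lemma sg_yo (X : RR) (v : X.V) : sg X (yo X v) = 0 := by
  rw [sg_apply, yo_yo, map_zero]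
lemma sg_sg (X : RR) (v : X.V) : sg X (sg X v) = 0 := by
  rw [sg_apply X v, sg_xo]
lemma xo_sg (X : RR) (v : X.V) : xo X (sg X v) = 0 := by
  rw [sg_apply, xo_xo]
lemma yo_sg (X : RR) (v : X.V) : yo X (sg X v) = 0 := by
  rw [sg_apply, xo_yo, yo_yo]
lemma yo_xo (X : RR) (v : X.V) : yo X (xo X v) = sg X v := by
  rw [sg_apply, xo_yo]
lemma xo_yo' (X : RR) (v : X.V) : xo X (yo X v) = sg X v := rfl

include hLU in
lemma lift_coords (a b c d : K) (h1 : L (sg X ((ffLift X U).hom (a, b, c, d))) = 0)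
    (h2 : L (yo X ((ffLift X U).hom (a, b, c, d))) = 0)
    (h3 : L (xo X ((ffLift X U).hom (a, b, c, d))) = 0)
    (h4 : L ((ffLift X U).hom (a, b, c, d)) = 0) : a = 0 ∧ b = 0 ∧ c = 0 ∧ d = 0 := by
  rw [ffLift_apply] at h1 h2 h3 h4
  simp only [map_add, sg_xo, sg_yo, sg_sg, map_zero, add_zero, hLU] at h1
  subst h1
  simp only [map_add, yo_yo, yo_sg, yo_xo, map_zero, add_zero, zero_add, hLU] at h2
  subst h2
  simp only [map_add, xo_xo, xo_sg, xo_yo', map_zero, add_zero, zero_add, hLU] at h3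
  subst h3
  simp only [map_zero, zero_add, hLU] at h4
  exact ⟨rfl, rfl, rfl, h4⟩

include hLU in
lemma ffLift_inj : Function.Injective (ffLift X U).hom := by
  rw [injective_iff_map_eq_zero]
  rintro ⟨a, b, c, d⟩ h
  obtain ⟨rfl, rfl, rfl, rfl⟩ := lift_coords U L hLU a b c d (by rw [h]; simp) (by rw [h]; simp)
    (by rw [h]; simp) (by rw [h]; simp)
  rfl

include hLU in
/-- splitting off a free module -/
lemma split_sub [FiniteDimensional kk X.V] [FiniteDimensional kk K] :
    ∃ N : RR, FiniteDimensional kk N.V ∧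
      Module.finrank kk X.V = Module.finrank kk N.V + 4 * Module.finrank kk K ∧
      Nonempty (X ≅ N ⊞ FF K) := by
  let W : Submodule kk X.V := LinearMap.range (ffLift X U).hom.toLinearMap
  have hW : ∀ g, W ≤ W.comap (X.ρ g) := by
    rintro g _ ⟨w, rfl⟩
    exact ⟨(FF K).ρ g w, Rep.hom_comm_apply (ffLift X U) g w⟩
  have hWdim : Module.finrank kk W = 4 * Module.finrank kk K := by
    rw [← finrank_FF]
    exact LinearMap.finrank_range_of_inj (ffLift_inj U L hLU)
  have hdim : Module.finrank kk X.V = Module.finrank kk (X.V ⧸ W) + 4 * Module.finrank kk K := by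
    rw [← hWdim]
    exact (Submodule.finrank_quotient_add_finrank W).symm
  refine ⟨Rep.quotient X W hW, ?_, hdim, ?_⟩
  · change FiniteDimensional kk (X.V ⧸ W)
    infer_instance
  · have : FiniteDimensional kk (Rep.quotient X W hW).V := by
      change FiniteDimensional kk (X.V ⧸ W)
      infer_instance
    apply split_quot (Rep.mkQ X W hW) L hdim
    intro v hv h1 h2 h3 h4
    have hv2 : v ∈ W := (Submodule.Quotient.mk_eq_zero W).1 hv
    obtain ⟨⟨a, b, c, d⟩, rfl⟩ := hv2
    obtain ⟨rfl, rfl, rfl, rfl⟩ := lift_coords U L hLU a b c d h1 h2 h3 h4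
    exact map_zero _

end

/-- canonical decomposition -/
lemma exists_decomp (X : RR) [FiniteDimensional kk X.V] :
    ∃ N P : RR, Projective P ∧ FiniteDimensional kk N.V ∧ FiniteDimensional kk P.V ∧
      Nonempty (X ≅ N ⊞ P) ∧ (Module.finrank kk N.V : ℤ) = cd X ∧
      Module.finrank kk P.V = 4 * rk X ∧ rk N = 0 := by
  let K := LinearMap.range (sg X)
  obtain ⟨U, hU⟩ := LinearMap.exists_rightInverse_of_surjective (sg X).rangeRestrict
    (LinearMap.range_rangeRestrict _)
  obtain ⟨L, hL⟩ := LinearMap.exists_leftInverse_of_injective K.subtype (Submodule.ker_subtype _)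
  have hLU : ∀ a, L (sg X (U a)) = a := by
    intro a
    have h1 : sg X (U a) = K.subtype a := congrArg K.subtype (LinearMap.congr_fun hU a)
    rw [h1]
    exact LinearMap.congr_fun hL a
  obtain ⟨N, hN, hdim, ⟨e⟩⟩ := split_sub U L hLU
  have hFF : FiniteDimensional kk (FF K).V := by
    change FiniteDimensional kk (K × K × K × K)
    infer_instance
  refine ⟨N, FF K, inferInstance, hN, hFF, ⟨e⟩, ?_, ?_, ?_⟩
  · unfold cd
    have : rk X = Module.finrank kk K := rfl
    rw [this, hdim]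
    push_cast; ring
  · rw [finrank_FF]; rfl
  · have h1 := rk_iso e
    rw [rk_biprod, rk_FF] at h1
    have h5 : Module.finrank kk K = rk N + Module.finrank kk K := h1
    omega

lemma four_rk_le (X : RR) [FiniteDimensional kk X.V] : 4 * rk X ≤ Module.finrank kk X.V := by
  obtain ⟨N, P, -, -, -, -, h, -, -⟩ := exists_decomp X
  unfold cd at h
  omega

lemma exists_socle (X : RR) (h : ∃ v : X.V, v ≠ 0) : ∃ v : X.V, v ≠ 0 ∧ xo X v = 0 ∧ yo X v = 0 := by
  obtain ⟨v, hv⟩ := h
  have h1 : ∃ w : X.V, w ≠ 0 ∧ xo X w = 0 := by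
    by_cases hx : xo X v = 0
    · exact ⟨v, hv, hx⟩
    · exact ⟨xo X v, hx, xo_xo X v⟩
  obtain ⟨w, hw, hxw⟩ := h1
  by_cases hy : yo X w = 0
  · exact ⟨w, hw, hxw, hy⟩
  · exact ⟨yo X w, hy, by rw [xo_yo, hxw, map_zero], yo_yo X w⟩

/-- a projective object with zero norm is zero -/
lemma projective_zero (X : RR) (hP : Projective X) (h : ∀ v, sg X v = 0) (v : X.V) : v = 0 := by
  by_contra hv
  obtain ⟨w, hw, hx, hy⟩ := exists_socle X ⟨v, hv⟩
  let q : FF X.V ⟶ X := ffLift X LinearMap.id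
  have hq : Epi q := (Rep.epi_iff_surjective q).2 (fun u => ⟨(u, 0, 0, 0), by
    change (ffLift X LinearMap.id).hom (u, 0, 0, 0) = u
    rw [ffLift_apply]; simp⟩)
  let s : X ⟶ FF X.V := Projective.factorThru (𝟙 X) q
  have hs : s ≫ q = 𝟙 X := Projective.factorThru_comp _ _
  have hs2 : ∀ u, q.hom (s.hom u) = u := by
    intro u
    change (s ≫ q).hom u = u
    rw [hs]; rfl
  have h1 : xo (FF X.V) (s.hom w) = 0 := by rw [← hom_xo, hx, map_zero]
  have h2 : yo (FF X.V) (s.hom w) = 0 := by rw [← hom_yo, hy, map_zero]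
  rcases hsw : s.hom w with ⟨a, b, c, d⟩
  rw [hsw] at h1 h2
  rw [xo_FF] at h1
  rw [yo_FF] at h2
  have ha : a = 0 := congrArg (fun v : X.V × X.V × X.V × X.V => v.2.1) h1
  have hc : c = 0 := congrArg (fun v : X.V × X.V × X.V × X.V => v.2.2.2) h1
  have hb : b = 0 := congrArg (fun v : X.V × X.V × X.V × X.V => v.2.2.2) h2
  subst ha hc hb
  have h3 : (s.hom w) = sg (FF X.V) (d, 0, 0, 0) := by rw [hsw, sg_FF]
  have h4 := hs2 w
  rw [h3, hom_sg, h] at h4
  exact hw h4.symm

lemma projective_left {X Y : RR} (h : Projective (X ⊞ Y)) : Projective X where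
  factors {E Z} f e he := by
    obtain ⟨g, hg⟩ := h.factors (biprod.fst ≫ f) e
    refine ⟨biprod.inl ≫ g, ?_⟩
    rw [Category.assoc, hg, ← Category.assoc, biprod.inl_fst, Category.id_comp]

lemma cd_projective (P : RR) [FiniteDimensional kk P.V] (hP : Projective P) : cd P = 0 := by
  obtain ⟨N, Q, hQ, hN, hQf, ⟨e⟩, h1, h2, h3⟩ := exists_decomp P
  have hN2 : Projective N := projective_left (Projective.of_iso e hP)
  have hz : ∀ v, sg N v = 0 := by
    unfold rk at h3
    have : LinearMap.range (sg N) = ⊥ := Submodule.finrank_eq_zero.1 h3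
    intro v
    have hv : sg N v ∈ LinearMap.range (sg N) := ⟨v, rfl⟩
    rw [this] at hv
    exact (Submodule.mem_bot _).1 hv
  have hN3 := projective_zero N hN2 hz
  rw [← h1]
  have : Subsingleton N.V := ⟨fun a b => by rw [hN3 a, hN3 b]⟩
  rw [Module.finrank_zero_of_subsingleton]
  rfl

lemma cd_nonneg (X : RR) [FiniteDimensional kk X.V] : 0 ≤ cd X := by
  have := four_rk_le X
  unfold cd
  omega

/-- the infimum in the problem -/
lemma sInf_eq_cd (X : RR) [FiniteDimensional kk X.V] :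
    ((sInf {d : ℕ | ∃ N P' : RR, Projective P' ∧ Nonempty (X ≅ N ⊞ P') ∧
      Module.finrank kk N.V = d} : ℕ) : ℤ) = cd X := by
  obtain ⟨N, P, hP, hN, hPf, ⟨e⟩, h1, h2, h3⟩ := exists_decomp X
  have key : ∀ d ∈ {d : ℕ | ∃ N P' : RR, Projective P' ∧ Nonempty (X ≅ N ⊞ P') ∧
      Module.finrank kk N.V = d}, cd X ≤ (d : ℤ) := by
    rintro d ⟨N', P', hP', ⟨e'⟩, rfl⟩
    have hf : FiniteDimensional kk (N' ⊞ P').V := Module.Finite.equiv (linOfIso e')
    have hf1 := fd_left N' P' hf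
    have hf2 := fd_right N' P' hf
    rw [cd_iso e', cd_biprod, cd_projective P' hP']
    unfold cd
    omega
  have hmem : Module.finrank kk N.V ∈ {d : ℕ | ∃ N P' : RR, Projective P' ∧ Nonempty (X ≅ N ⊞ P') ∧
      Module.finrank kk N.V = d} := ⟨N, P, hP, ⟨e⟩, rfl⟩
  have hle := Nat.sInf_le hmem
  have hge := key _ (Nat.sInf_mem ⟨_, hmem⟩)
  rw [← h1] at hge ⊢
  omega

end Pool.Agent.H268R3
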