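import Pool.Agent.H268R3.V4Split

set_option autoImplicit false

open CategoryTheory CategoryTheory.MonoidalCategory CategoryTheory.Limits

namespace Pool.Agent.H268R3

instance fd_tensor (X Y : RR) [FiniteDimensional kk X.V] [FiniteDimensional kk Y.V] :
    FiniteDimensional kk (X ⊗ Y : RR).V := by
  change FiniteDimensional kk (TensorProduct kk X.V Y.V)
  infer_instance

instance fd_unit : FiniteDimensional kk (𝟙_ RR).V := by
  change FiniteDimensional kk kk
  infer_instance

instance fd_biprod' (X Y : RR) [FiniteDimensional kk X.V] [FiniteDimensional kk Y.V] :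
    FiniteDimensional kk (X ⊞ Y : RR).V := fd_biprod X Y

lemma ihom_preservesEpi (X : RR) : (ihom X).PreservesEpimorphisms where
  preserves {Y Z} f hf := by
    have hs : Function.Surjective f.hom := (Rep.epi_iff_surjective f).1 hf
    refine (Rep.epi_iff_surjective _).2 ?_
    intro (h : X.V →ₗ[kk] Z.V)
    obtain ⟨s, hs2⟩ := Module.projective_lifting_property (R := kk) (P := X.V)
      (f.hom.toLinearMap) h hs
    exact ⟨s, hs2⟩

lemma projective_tensor (X P : RR) (hP : Projective P) : Projective (X ⊗ P) := by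
  haveI := ihom_preservesEpi X
  exact Adjunction.map_projective (ihom.adjunction X) P hP

/-- stable equivalence detected on core dimensions -/
def CE (X Y : RR) : Prop := ∀ Z : RR, FiniteDimensional kk Z.V → cd (Z ⊗ X) = cd (Z ⊗ Y)

lemma CE.refl (X : RR) : CE X X := fun _ _ => rfl
lemma CE.symm {X Y : RR} (h : CE X Y) : CE Y X := fun Z hZ => (h Z hZ).symm
lemma CE.trans {X Y W : RR} (h : CE X Y) (h' : CE Y W) : CE X W :=
  fun Z hZ => (h Z hZ).trans (h' Z hZ)

lemma CE.of_iso {X Y : RR} (e : X ≅ Y) : CE X Y := fun Z _ => cd_iso (whiskerLeftIso Z e)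

lemma CE.tensorLeft {X Y : RR} (h : CE X Y) (W : RR) (hW : FiniteDimensional kk W.V) :
    CE (W ⊗ X) (W ⊗ Y) := by
  intro Z hZ
  rw [← cd_iso (α_ Z W X), ← cd_iso (α_ Z W Y)]
  exact h _ inferInstance

lemma CE.tensorRight {X Y : RR} (h : CE X Y) (W : RR) (hW : FiniteDimensional kk W.V) :
    CE (X ⊗ W) (Y ⊗ W) :=
  ((CE.of_iso (β_ X W)).trans (h.tensorLeft W hW)).trans (CE.of_iso (β_ W Y))

/-- tensor distributes over biproducts -/
noncomputable def tensorBiprod (Z X Y : RR) : Z ⊗ (X ⊞ Y) ≅ (Z ⊗ X) ⊞ (Z ⊗ Y) :=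
  haveI := preservesBinaryBiproducts_of_preservesBiproducts (MonoidalCategory.tensorLeft Z)
  (MonoidalCategory.tensorLeft Z).mapBiprod X Y

/-- tensor distributes over biproducts -/
noncomputable def biprodTensor (X Y Z : RR) : (X ⊞ Y) ⊗ Z ≅ (X ⊗ Z) ⊞ (Y ⊗ Z) :=
  haveI := preservesBinaryBiproducts_of_preservesBiproducts (MonoidalCategory.tensorRight Z)
  (MonoidalCategory.tensorRight Z).mapBiprod X Y

lemma CE.of_biprod_projective {X Y P : RR} [FiniteDimensional kk Y.V] [FiniteDimensional kk P.V]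
    (hP : Projective P) (e : X ≅ Y ⊞ P) : CE X Y := by
  intro Z hZ
  rw [cd_iso (whiskerLeftIso Z e), cd_iso (tensorBiprod Z Y P), cd_biprod,
    cd_projective _ (projective_tensor Z P hP), add_zero]

lemma CE.cd_eq {X Y : RR} (h : CE X Y) : cd X = cd Y := by
  rw [← cd_iso (λ_ X), ← cd_iso (λ_ Y)]
  exact h _ inferInstance

end Pool.Agent.H268R3
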