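import Pool.Agent.H268R3.V4Dual

set_option autoImplicit false

open CategoryTheory CategoryTheory.MonoidalCategory CategoryTheory.Limits

namespace Pool.Agent.H268R3

lemma one_dim_zero (N : RR) (f : N.V →ₗ[kk] N.V) (hf : ∀ v, f (f v) = 0)
    (h1 : Module.finrank kk N.V = 1) (v : N.V) : f v = 0 := by
  by_contra hv
  obtain ⟨c, hc⟩ := (finrank_eq_one_iff_of_nonzero' (f v) hv).1 h1 v
  have h2 : f v = 0 := by
    rw [← hc, map_smul, hf, smul_zero]
  exact hv h2

lemma iso_unit_of_finrank (N : RR) (h1 : Module.finrank kk N.V = 1) : Nonempty (N ≅ 𝟙_ RR) := by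
  have hx := one_dim_zero N (xo N) (xo_xo N) h1
  have hy := one_dim_zero N (yo N) (yo_yo N) h1
  have hfd : FiniteDimensional kk N.V := Module.finite_of_finrank_pos (by omega)
  let e : N.V ≃ₗ[kk] kk := LinearEquiv.ofFinrankEq _ _ (by rw [h1, Module.finrank_self])
  let F : N ⟶ 𝟙_ RR := mkHom (X := N) (Y := 𝟙_ RR) e.toLinearMap
    (by
      intro v
      rw [hx, map_zero, xo_apply]
      exact (two_smul_zero _).symm)
    (by
      intro v
      rw [hy, map_zero, yo_apply]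
      exact (two_smul_zero _).symm)
  exact ⟨isoOfBij F e.bijective⟩

instance fd_AA : FiniteDimensional kk AA.V := by
  change FiniteDimensional kk (kk × (kk × kk)); infer_instance
instance fd_BB : FiniteDimensional kk BB.V := by
  change FiniteDimensional kk ((kk × kk) × kk); infer_instance
instance fd_FF (K : Type) [AddCommGroup K] [Module kk K] [FiniteDimensional kk K] :
    FiniteDimensional kk (FF K).V := by
  change FiniteDimensional kk (K × K × K × K); infer_instance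
instance fd_DD {U V : Type} [AddCommGroup U] [Module kk U] [AddCommGroup V] [Module kk V]
    [FiniteDimensional kk U] [FiniteDimensional kk V] (s t : U →ₗ[kk] V) :
    FiniteDimensional kk (DD s t).V := by
  change FiniteDimensional kk (U × V); infer_instance

lemma CE_AB : CE (AA ⊗ BB) (𝟙_ RR) := by
  let U : (kk × kk) →ₗ[kk] (AA ⊗ BB : RR).V :=
    (ce BB).symm.toLinearMap ∘ₗ LinearMap.inl kk ((kk × kk) × kk) (((kk × kk) × kk) × ((kk × kk) × kk))
      ∘ₗ LinearMap.inl kk (kk × kk) kk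
  let L : (AA ⊗ BB : RR).V →ₗ[kk] (kk × kk) :=
    LinearMap.prod
      (LinearMap.snd kk (kk × kk) kk ∘ₗ LinearMap.snd kk ((kk × kk) × kk) ((kk × kk) × kk) ∘ₗ
        LinearMap.snd kk ((kk × kk) × kk) (((kk × kk) × kk) × ((kk × kk) × kk)) ∘ₗ (ce BB).toLinearMap)
      (LinearMap.snd kk (kk × kk) kk ∘ₗ LinearMap.fst kk ((kk × kk) × kk) ((kk × kk) × kk) ∘ₗ
        LinearMap.snd kk ((kk × kk) × kk) (((kk × kk) × kk) × ((kk × kk) × kk)) ∘ₗ (ce BB).toLinearMap)
  have hL : ∀ w, L w = ((ce BB w).2.2.2, (ce BB w).2.1.2) := fun _ => rfl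
  have hU : ∀ u, ce BB (U u) = ((u, 0), 0, 0) := fun u => (ce BB).apply_symm_apply _
  have hLU : ∀ a, L (sg (AA ⊗ BB) (U a)) = a := by
    intro a
    rw [hL, sg_apply, ce_xo, ce_yo, hU]
    dsimp only
    rw [map_zero, add_zero, map_add, yo_DD, xo_DD, xo_DD]
    obtain ⟨a, b⟩ := a
    simp
  obtain ⟨N, hN, hdim, ⟨e⟩⟩ := split_sub U L hLU
  have h9 : Module.finrank kk (AA ⊗ BB : RR).V = 9 := by
    rw [LinearEquiv.finrank_eq (ce BB)]
    change Module.finrank kk (((kk × kk) × kk) × ((kk × kk) × kk) × ((kk × kk) × kk)) = 9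
    simp [Module.finrank_prod]
  have h2 : Module.finrank kk (kk × kk) = 2 := by simp [Module.finrank_prod]
  rw [h9, h2] at hdim
  obtain ⟨e2⟩ := iso_unit_of_finrank N (by omega)
  exact (CE.of_biprod_projective (X := AA ⊗ BB) (Y := N) (P := FF (kk × kk)) inferInstance e).trans
    (CE.of_iso e2)

/-- positive tower -/
noncomputable def Tp : ℕ → RR
  | 0 => 𝟙_ RR
  | (n + 1) => AA ⊗ Tp n
/-- negative tower -/
noncomputable def Tm : ℕ → RR
  | 0 => 𝟙_ RR
  | (n + 1) => BB ⊗ Tm n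

instance fd_Tp : ∀ n, FiniteDimensional kk (Tp n).V
  | 0 => fd_unit
  | (n + 1) => by
    have := fd_Tp n
    exact fd_tensor AA (Tp n)
instance fd_Tm : ∀ n, FiniteDimensional kk (Tm n).V
  | 0 => fd_unit
  | (n + 1) => by
    have := fd_Tm n
    exact fd_tensor BB (Tm n)

lemma unit_DD : Nonempty (𝟙_ RR ≅ DD (0 : PUnit.{1} →ₗ[kk] kk) 0) := by
  have h0 : Module.finrank kk (DD (0 : PUnit.{1} →ₗ[kk] kk) 0).V = 1 := by
    change Module.finrank kk (PUnit.{1} × kk) = 1
    rw [Module.finrank_prod, Module.finrank_zero_of_subsingleton, Module.finrank_self]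
  obtain ⟨e⟩ := iso_unit_of_finrank _ h0
  exact ⟨e.symm⟩

lemma Tp_struct (n : ℕ) : ∃ (U V : Type) (_ : AddCommGroup U) (_ : Module kk U)
    (_ : AddCommGroup V) (_ : Module kk V) (_ : FiniteDimensional kk U)
    (_ : FiniteDimensional kk V) (s t : U →ₗ[kk] V), Function.Injective t ∧
    Module.finrank kk U = n ∧ Module.finrank kk V = n + 1 ∧ CE (Tp n) (DD s t) := by
  induction n with
  | zero =>
    refine ⟨PUnit.{1}, kk, inferInstance, inferInstance, inferInstance, inferInstance,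
      inferInstance, inferInstance, 0, 0, fun _ _ _ => rfl,
      Module.finrank_zero_of_subsingleton, by rw [Module.finrank_self], ?_⟩
    obtain ⟨e⟩ := unit_DD
    exact CE.of_iso e
  | succ n ih =>
    obtain ⟨U, V, i1, i2, i3, i4, i5, i6, s, t, ht, hU, hV, hCE⟩ := ih
    obtain ⟨e⟩ := step_iso s t ht
    refine ⟨V, NV s t, inferInstance, inferInstance, inferInstance, inferInstance,
      inferInstance, inferInstance, ns s t, nt s t, nt_inj s t ht, hV, ?_, ?_⟩
    · have := finrank_NV s t ht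
      omega
    · have h1 : CE (AA ⊗ Tp n) (AA ⊗ DD s t) := hCE.tensorLeft AA fd_AA
      exact h1.trans (CE.of_biprod_projective (P := FF U) inferInstance e)

lemma cd_Tp (n : ℕ) : cd (Tp n) = 2 * n + 1 := by
  obtain ⟨U, V, i1, i2, i3, i4, i5, i6, s, t, ht, hU, hV, hCE⟩ := Tp_struct n
  rw [hCE.cd_eq, cd_DD, hU, hV]
  push_cast; ring

lemma du_Tp (n : ℕ) : Nonempty (du (Tp n) ≅ Tm n) := by
  induction n with
  | zero => exact du_unit
  | succ n ih =>
    obtain ⟨e1⟩ := ih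
    obtain ⟨e2⟩ := du_tensor AA (Tp n)
    obtain ⟨e3⟩ := du_AA
    exact ⟨e2.symm ≪≫ (tensorIso e3 e1)⟩

lemma cd_Tm (n : ℕ) : cd (Tm n) = 2 * n + 1 := by
  obtain ⟨e⟩ := du_Tp n
  rw [← cd_iso e, cd_du, cd_Tp]

/-- the two-sided tower -/
noncomputable def TT : ℤ → RR
  | Int.ofNat n => Tp n
  | Int.negSucc n => Tm (n + 1)

instance fd_TT (j : ℤ) : FiniteDimensional kk (TT j).V := by
  cases j with
  | ofNat n => exact fd_Tp n
  | negSucc n => exact fd_Tm (n + 1)

lemma TT_nat (n : ℕ) : TT (n : ℤ) = Tp n := rfl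
lemma TT_neg (n : ℕ) : TT (-(n : ℤ)) = Tm n := by
  cases n with
  | zero => rfl
  | succ n => rfl

lemma cd_TT (j : ℤ) : cd (TT j) = 2 * |j| + 1 := by
  rcases Int.natAbs_eq j with h | h
  · rw [h, TT_nat, cd_Tp]; simp
  · rw [h, TT_neg, cd_Tm]; simp

lemma CE_AB_tensor (X : RR) (hX : FiniteDimensional kk X.V) : CE (AA ⊗ (BB ⊗ X)) X :=
  ((CE.of_iso (α_ AA BB X).symm).trans (CE_AB.tensorRight X hX)).trans (CE.of_iso (λ_ X))

lemma CE_BA_tensor (X : RR) (hX : FiniteDimensional kk X.V) : CE (BB ⊗ (AA ⊗ X)) X :=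
  (((CE.of_iso (α_ BB AA X).symm).trans (CE.of_iso (whiskerRightIso (β_ BB AA) X))).trans
    (CE_AB.tensorRight X hX)).trans (CE.of_iso (λ_ X))

lemma CE_A_TT (j : ℤ) : CE (AA ⊗ TT j) (TT (j + 1)) := by
  cases j with
  | ofNat n => exact CE.refl _
  | negSucc n =>
    have h : TT (Int.negSucc n + 1) = Tm n := by
      have : Int.negSucc n + 1 = -(n : ℤ) := by rw [Int.negSucc_eq]; ring
      rw [this, TT_neg]
    rw [h]
    exact CE_AB_tensor (Tm n) inferInstance

lemma CE_B_TT (j : ℤ) : CE (BB ⊗ TT j) (TT (j - 1)) := by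
  rcases lt_or_ge 0 j with hj | hj
  · obtain ⟨n, hn⟩ := Int.eq_ofNat_of_zero_le (a := j - 1) (by omega)
    have h1 : j = ((n + 1 : ℕ) : ℤ) := by push_cast; omega
    have h2 : j - 1 = (n : ℤ) := hn
    rw [h2, h1, TT_nat, TT_nat]
    exact CE_BA_tensor (Tp n) inferInstance
  · obtain ⟨n, hn⟩ := Int.eq_ofNat_of_zero_le (a := -j) (by omega)
    have h1 : j = -(n : ℤ) := by omega
    have h2 : j - 1 = -((n + 1 : ℕ) : ℤ) := by push_cast; omega
    rw [h2, h1, TT_neg, TT_neg]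
    exact CE.refl _

/-- the module of the counterexample -/
noncomputable abbrev MM : RR := AA ⊞ BB

/-- tensor powers -/
noncomputable def XX (n : ℕ) : RR := (fun X : RR => X ⊗ MM)^[n] (𝟙_ RR)

lemma XX_succ (n : ℕ) : XX (n + 1) = XX n ⊗ MM := Function.iterate_succ_apply' _ _ _

instance fd_MM : FiniteDimensional kk MM.V := fd_biprod' AA BB

instance fd_XX : ∀ n, FiniteDimensional kk (XX n).V
  | 0 => fd_unit
  | (n + 1) => by
    have := fd_XX n
    rw [XX_succ]
    infer_instance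

lemma cd_rec (n : ℕ) (j : ℤ) :
    cd (XX (n + 1) ⊗ TT j) = cd (XX n ⊗ TT (j + 1)) + cd (XX n ⊗ TT (j - 1)) := by
  rw [XX_succ, cd_iso (α_ (XX n) MM (TT j)),
    cd_iso (whiskerLeftIso (XX n) (biprodTensor AA BB (TT j))),
    cd_iso (tensorBiprod (XX n) (AA ⊗ TT j) (BB ⊗ TT j)), cd_biprod,
    CE_A_TT j (XX n) inferInstance, CE_B_TT j (XX n) inferInstance]

lemma cd_zero (j : ℤ) : cd (XX 0 ⊗ TT j) = 2 * |j| + 1 := by
  rw [← cd_TT]
  exact cd_iso (λ_ (TT j))

lemma cd_XX (n : ℕ) : cd (XX n) = cd (XX n ⊗ TT 0) := (cd_iso (ρ_ (XX n))).symm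

end Pool.Agent.H268R3
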